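import Pool.Agent.W423.NT.Defs
import Pool.Agent.W407.NX.Scale

set_option autoImplicit false

/-! Functional equations of tuples and of products. -/

namespace Pool.Agent.W351.NT

open MvPolynomial Pool.Agent.H628R4.TZ Pool.Agent.H628R4.TP
open Pool.Agent.W423.NT (SM rowM FEQ)

theorem fe1 : Pool.Agent.W423.NT.TaskFE1 := by
  intro N P f b hb
  obtain ⟨D, hD⟩ := hb
  refine ⟨1, D, by simp, fun _ => rfl, fun n => ?_⟩
  have h1 : ∀ k : Fin (P+1), SM (fun k t : Fin (P+1) => if k = t then 1 else 0) n k = n k := by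
    intro k
    simp [SM]
  have h2 : ∀ k : Fin (P+1), rowM (fun k t : Fin (P+1) => if k = t then 1 else 0) k = 1 := by
    intro k
    simp [rowM]
  simp only [h1, h2, one_mul]
  exact hD n

theorem eval_aeval_X0 (x : Fin 1 → ℂ) (b : Polynomial ℂ) :
    eval x (Polynomial.aeval (X 0 : MvPolynomial (Fin 1) ℂ) b) = b.eval (x 0) := by
  rw [Polynomial.aeval_def, Polynomial.hom_eval₂, eval_X]
  have h : (eval x).comp (algebraMap ℂ (MvPolynomial (Fin 1) ℂ)) = RingHom.id ℂ := by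
    ext z
    simp
  rw [h, Polynomial.eval₂_id]

theorem fromQ {N P : ℕ} (G : Fin (P+1) → MvPolynomial (Fin N) ℂ) (m : Fin (P+1) → ℕ)
    (b : Polynomial ℂ) (a : MvPolynomial (Fin N) ℂ) (Q : ℕ →₀ weylS (Fin N))
    (hQ : ∀ s : ℕ, C (b.eval (s : ℂ)) * a * (∏ k, G k ^ m k) ^ s =
      Q.sum fun m' Q => ((s : ℂ) ^ m') •
        (Q : Module.End ℂ (MvPolynomial (Fin N) ℂ)) ((∏ k, G k ^ m k) ^ (s + 1))) :
    ∃ D : (Fin 1 →₀ ℕ) →₀ weyl N, ∀ n : Fin 1 → ℕ,
      C (eval (fun t => (n t : ℂ)) (Polynomial.aeval (X 0 : MvPolynomial (Fin 1) ℂ) b)) *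
          (a * ∏ k, G k ^ SM (fun k (_ : Fin 1) => m k) n k) =
        D.sum fun β Q => (∏ t, (n t : ℂ) ^ β t) •
          (Q : Module.End ℂ (MvPolynomial (Fin N) ℂ))
            (∏ k, G k ^ (SM (fun k (_ : Fin 1) => m k) n k +
              rowM (fun k (_ : Fin 1) => m k) k)) := by
  obtain ⟨D, hD⟩ := Pool.Agent.W407.NX.mkD (P := 0) (N := N) Q.support
    (fun j => Finsupp.single 0 j) (fun j => (Q j : weyl N))
  refine ⟨D, fun n => ?_⟩
  have h1 : ∀ k : Fin (P+1), SM (fun k (_ : Fin 1) => m k) n k = m k * n 0 := by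
    intro k
    simp [SM]
  have h2 : ∀ k : Fin (P+1), rowM (fun k (_ : Fin 1) => m k) k = m k := by
    intro k
    simp [rowM]
  have hG1 : ∏ k, G k ^ SM (fun k (_ : Fin 1) => m k) n k = (∏ k, G k ^ m k) ^ n 0 := by
    rw [← Finset.prod_pow]
    refine Finset.prod_congr rfl fun k _ => ?_
    rw [h1, pow_mul]
  have hG2 : ∏ k, G k ^ (SM (fun k (_ : Fin 1) => m k) n k +
      rowM (fun k (_ : Fin 1) => m k) k) = (∏ k, G k ^ m k) ^ (n 0 + 1) := by
    rw [← Finset.prod_pow]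
    refine Finset.prod_congr rfl fun k _ => ?_
    rw [h1, h2, ← pow_mul, mul_add, mul_one]
  rw [hG1, hG2, eval_aeval_X0]
  have h3 := hQ (n 0)
  rw [← mul_assoc, h3]
  have h4 := hD n ((∏ k, G k ^ m k) ^ (n 0 + 1))
  refine Eq.trans ?_ h4.symm
  rw [Finsupp.sum]
  refine Finset.sum_congr rfl fun j _ => ?_
  congr 1
  simp

theorem fe2 : Pool.Agent.W423.NT.TaskFE2 := by
  intro N P G m b
  constructor
  · rintro ⟨Q, hQ⟩
    obtain ⟨D, hD⟩ := fromQ G m b 1 Q (fun s => by rw [mul_one]; exact hQ s)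
    exact ⟨1, D, by simp, fun _ => rfl, hD⟩
  · intro hf hc hb
    obtain ⟨-, a, Q, ha, hQ⟩ := Pool.Agent.W368.SL.taskL1 _ b hf hc hb
    obtain ⟨D, hD⟩ := fromQ G m b a Q hQ
    exact ⟨a, D, ha, fun h => absurd trivial h, hD⟩

end Pool.Agent.W351.NT
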