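import Pool.Agent.W423.NT.Defs3
import Pool.Agent.W351.NT.FE
import Pool.Agent.W368.SL.L1

set_option autoImplicit false

/-! Roots of `b` that come from the divisor of an irreducible factor. -/

namespace Pool.Agent.W351.NT

open MvPolynomial Pool.Agent.H628R4.TZ
open Pool.Agent.W423.NT (SM rowM FEQ)
open Pool.Agent.W368.SL (dG pderiv_eval)

variable {N : ℕ}

/-- families `u_n` with `f ^ M * u_n = f ^ n * q (n)` and a divisibility condition at `c` -/
def GR (f ϖ : MvPolynomial (Fin N) ℂ) (a e : ℕ) (c : ℂ) (u : ℕ → MvPolynomial (Fin N) ℂ) : Prop :=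
  ∃ (M : ℕ) (q : Polynomial (MvPolynomial (Fin N) ℂ)),
    (∀ n : ℕ, f ^ M * u n = f ^ n * q.eval (n : MvPolynomial (Fin N) ℂ)) ∧
    ϖ ^ (a + e * M) ∣ q.eval (C c)

variable {f ϖ h : MvPolynomial (Fin N) ℂ} {a e : ℕ} {c : ℂ}

theorem GR.add (hf : f = ϖ ^ e * h) {u v : ℕ → MvPolynomial (Fin N) ℂ} (hu : GR f ϖ a e c u)
    (hv : GR f ϖ a e c v) : GR f ϖ a e c (fun n => u n + v n) := by
  obtain ⟨M, q, h1, h2⟩ := hu
  obtain ⟨M', q', h1', h2'⟩ := hv
  refine ⟨M + M', Polynomial.C (f ^ M') * q + Polynomial.C (f ^ M) * q', fun n => ?_, ?_⟩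
  · rw [Polynomial.eval_add, Polynomial.eval_mul, Polynomial.eval_mul, Polynomial.eval_C,
      Polynomial.eval_C, pow_add]
    linear_combination f ^ M' * h1 n + f ^ M * h1' n
  · rw [Polynomial.eval_add, Polynomial.eval_mul, Polynomial.eval_mul, Polynomial.eval_C,
      Polynomial.eval_C]
    have hd : ∀ k : ℕ, ϖ ^ (e * k) ∣ f ^ k := by
      intro k
      rw [hf, mul_pow, ← pow_mul]
      exact dvd_mul_right _ _
    refine dvd_add ?_ ?_
    · have e1 : a + e * (M + M') = e * M' + (a + e * M) := by ring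
      rw [e1, pow_add]
      exact mul_dvd_mul (hd M') h2
    · have e1 : a + e * (M + M') = e * M + (a + e * M') := by ring
      rw [e1, pow_add]
      exact mul_dvd_mul (hd M) h2'

theorem GR.mul_left {u : ℕ → MvPolynomial (Fin N) ℂ} (hu : GR f ϖ a e c u)
    (p : MvPolynomial (Fin N) ℂ) : GR f ϖ a e c (fun n => p * u n) := by
  obtain ⟨M, q, h1, h2⟩ := hu
  refine ⟨M, Polynomial.C p * q, fun n => ?_, ?_⟩
  · rw [Polynomial.eval_mul, Polynomial.eval_C]
    linear_combination p * h1 n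
  · rw [Polynomial.eval_mul, Polynomial.eval_C]
    exact dvd_mul_of_dvd_right h2 _

theorem GR.npow {u : ℕ → MvPolynomial (Fin N) ℂ} (hu : GR f ϖ a e c u) (k : ℕ) :
    GR f ϖ a e c (fun n => ((n : ℂ) ^ k) • u n) := by
  obtain ⟨M, q, h1, h2⟩ := hu
  refine ⟨M, Polynomial.X ^ k * q, fun n => ?_, ?_⟩
  · show f ^ M * (((n : ℂ) ^ k) • u n) = _
    rw [Polynomial.eval_mul, Polynomial.eval_pow, Polynomial.eval_X, smul_eq_C_mul, map_pow,
      map_natCast]
    linear_combination (n : MvPolynomial (Fin N) ℂ) ^ k * h1 n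
  · rw [Polynomial.eval_mul]
    exact dvd_mul_of_dvd_right h2 _

theorem GR.zero : GR f ϖ a e c (fun _ => 0) := ⟨0, 0, fun n => by simp, by simp⟩

theorem pderiv_eval_C (i : Fin N) (q : Polynomial (MvPolynomial (Fin N) ℂ)) (c : ℂ) :
    pderiv i (q.eval (C c)) = (dG i q).eval (C c) := by
  rw [dG, Polynomial.eval_finsetSum, Polynomial.eval_eq_sum, Polynomial.sum, map_sum]
  refine Finset.sum_congr rfl fun j _ => ?_
  rw [Polynomial.eval_monomial, Derivation.leibniz, ← map_pow, pderiv_C, smul_zero, zero_add,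
    smul_eq_mul, mul_comm]

theorem pderiv_pow_mul (i : Fin N) (p : MvPolynomial (Fin N) ℂ) (k : ℕ) :
    p * pderiv i (p ^ k) = (k : MvPolynomial (Fin N) ℂ) * p ^ k * pderiv i p := by
  rw [Derivation.leibniz_pow]
  simp only [smul_eq_mul, nsmul_eq_mul]
  rcases Nat.eq_zero_or_pos k with h | h
  · rw [h]; simp
  · obtain ⟨l, rfl⟩ := Nat.exists_eq_succ_of_ne_zero h.ne'
    simp only [Nat.succ_eq_add_one, Nat.add_sub_cancel]
    ring

theorem dvd_step (hϖ : ϖ ≠ 0) (hf : f = ϖ ^ e * h) (i : Fin N) {A : ℕ} {k : MvPolynomial (Fin N) ℂ}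
    (hA : (A : MvPolynomial (Fin N) ℂ) + k * e = 0) {q : MvPolynomial (Fin N) ℂ}
    (hq : ϖ ^ A ∣ q) : ϖ ^ (A + e) ∣ f * pderiv i q + k * pderiv i f * q := by
  obtain ⟨w, rfl⟩ := hq
  refine ⟨h * pderiv i w + k * pderiv i h * w, ?_⟩
  apply mul_left_cancel₀ hϖ
  have k1 := pderiv_pow_mul i ϖ A
  have k2 := pderiv_pow_mul i ϖ e
  rw [hf, Derivation.leibniz, Derivation.leibniz]
  simp only [smul_eq_mul]
  rw [pow_add]
  linear_combination ϖ ^ e * h * w * k1 + k * h * ϖ ^ A * w * k2 +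
    ϖ ^ A * ϖ ^ e * pderiv i ϖ * h * w * hA

theorem GR.pderiv (hϖ : ϖ ≠ 0) (hf : f = ϖ ^ e * h) (hac : (a : ℂ) + c * e = 0)
    {u : ℕ → MvPolynomial (Fin N) ℂ} (hu : GR f ϖ a e c u) (i : Fin N) :
    GR f ϖ a e c (fun n => MvPolynomial.pderiv i (u n)) := by
  obtain ⟨M, q, h1, h2⟩ := hu
  refine ⟨M + 1, Polynomial.C f * dG i q + (Polynomial.X -
    Polynomial.C (M : MvPolynomial (Fin N) ℂ)) * (Polynomial.C (MvPolynomial.pderiv i f) * q),
    fun n => ?_, ?_⟩
  · have g1 := congrArg (MvPolynomial.pderiv i) (h1 n)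
    rw [Derivation.leibniz, Derivation.leibniz, pderiv_eval] at g1
    simp only [smul_eq_mul] at g1
    have g3 := pderiv_pow_mul i f n
    have g4 := pderiv_pow_mul i f M
    have g5 := h1 n
    simp only [Polynomial.eval_sub, Polynomial.eval_add, Polynomial.eval_mul, Polynomial.eval_C,
      Polynomial.eval_X]
    rw [pow_succ]
    linear_combination f * g1 + (Polynomial.eval (n : MvPolynomial (Fin N) ℂ) q) * g3 -
      u n * g4 - (M : MvPolynomial (Fin N) ℂ) * MvPolynomial.pderiv i f * g5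
  · simp only [Polynomial.eval_sub, Polynomial.eval_add, Polynomial.eval_mul, Polynomial.eval_C,
      Polynomial.eval_X]
    rw [← pderiv_eval_C]
    have e1 : a + e * (M + 1) = (a + e * M) + e := by ring
    rw [e1]
    have hA : ((a + e * M : ℕ) : MvPolynomial (Fin N) ℂ) +
        (C c - (M : MvPolynomial (Fin N) ℂ)) * (e : MvPolynomial (Fin N) ℂ) = 0 := by
      have h3 := congrArg (C (σ := Fin N)) hac
      rw [map_add, map_mul, map_natCast, map_natCast, map_zero] at h3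
      push_cast
      linear_combination h3
    have := dvd_step hϖ hf i hA h2
    rwa [mul_assoc] at this

theorem GR.weyl (hϖ : ϖ ≠ 0) (hf : f = ϖ ^ e * h) (hac : (a : ℂ) + c * e = 0)
    (Q : Module.End ℂ (MvPolynomial (Fin N) ℂ)) (hQ : Q ∈ Pool.Agent.H628R4.TZ.weyl N) :
    ∀ u, GR f ϖ a e c u → GR f ϖ a e c (fun n => Q (u n)) := by
  induction hQ using Algebra.adjoin_induction with
  | mem x hx =>
    intro u hu
    rcases hx with ⟨i, rfl⟩ | ⟨i, rfl⟩
    · exact hu.mul_left (X i)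
    · exact hu.pderiv hϖ hf hac i
  | algebraMap r =>
    intro u hu
    have h1 := hu.mul_left (C r)
    have h2 : (fun n => (algebraMap ℂ (Module.End ℂ (MvPolynomial (Fin N) ℂ)) r) (u n)) =
        fun n => C r * u n := by
      funext n
      rw [Module.algebraMap_end_apply, smul_eq_C_mul]
    rw [h2]
    exact h1
  | add x y _ _ hx hy =>
    intro u hu
    exact (hx u hu).add hf (hy u hu)
  | mul x y _ _ hx hy =>
    intro u hu
    exact hx _ (hy u hu)

theorem GR.sum {ι : Type} (hf : f = ϖ ^ e * h) (s : Finset ι)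
    (u : ι → ℕ → MvPolynomial (Fin N) ℂ) (hu : ∀ i ∈ s, GR f ϖ a e c (u i)) :
    GR f ϖ a e c (fun n => ∑ i ∈ s, u i n) := by
  classical
  induction s using Finset.induction_on with
  | empty => simpa using GR.zero
  | insert i s hi ih =>
    have h1 := (hu i (Finset.mem_insert_self _ _)).add hf
      (ih fun j hj => hu j (Finset.mem_insert_of_mem hj))
    have h2 : (fun n => ∑ j ∈ insert i s, u j n) = fun n => u i n + ∑ j ∈ s, u j n := by
      funext n
      rw [Finset.sum_insert hi]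
    rw [h2]
    exact h1

theorem final (hϖ : Irreducible ϖ) (hh : ¬ ϖ ∣ h) (hf : f = ϖ ^ e * h) (ha : 1 ≤ a)
    (A : MvPolynomial (Fin N) ℂ) (hA : ¬ ϖ ∣ A) (b : Polynomial ℂ)
    (hG : GR f ϖ a e c (fun n => C (b.eval (n : ℂ)) * (A * f ^ n))) : b.eval c = 0 := by
  obtain ⟨M, q, h1, h2⟩ := hG
  have hϖ0 : ϖ ≠ 0 := hϖ.ne_zero
  have hh0 : h ≠ 0 := fun h0 => hh (h0 ▸ dvd_zero ϖ)
  have hf0 : f ≠ 0 := by rw [hf]; exact mul_ne_zero (pow_ne_zero _ hϖ0) hh0
  have hq : q = Polynomial.C (A * f ^ M) * b.map C := by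
    refine Polynomial.eq_of_infinite_eval_eq _ _ ?_
    refine Set.Infinite.mono (s := Set.range (fun n : ℕ => (n : MvPolynomial (Fin N) ℂ))) ?_
      (Set.infinite_range_of_injective Nat.cast_injective)
    rintro _ ⟨n, rfl⟩
    have h3 := h1 n
    have h4 : Polynomial.eval ((n : ℕ) : MvPolynomial (Fin N) ℂ) (b.map C) =
        C (b.eval (n : ℂ)) := by
      rw [← map_natCast (C (σ := Fin N) (R := ℂ)) n, Polynomial.eval_map,
        Polynomial.eval₂_at_apply]
    show Polynomial.eval _ q = Polynomial.eval _ _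
    rw [Polynomial.eval_mul, Polynomial.eval_C, h4]
    apply mul_left_cancel₀ (pow_ne_zero n hf0)
    rw [← h3]
    ring
  have h5 : Polynomial.eval (C c) (b.map (C (σ := Fin N))) = C (b.eval c) := by
    rw [Polynomial.eval_map, Polynomial.eval₂_at_apply]
  rw [hq, Polynomial.eval_mul, Polynomial.eval_C, h5, hf, mul_pow, ← pow_mul, pow_add] at h2
  have h6 : ϖ ^ a ∣ A * h ^ M * C (b.eval c) := by
    have h7 : ϖ ^ (e * M) * ϖ ^ a ∣ ϖ ^ (e * M) * (A * h ^ M * C (b.eval c)) := by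
      have e1 : ϖ ^ (e * M) * (A * h ^ M * C (b.eval c)) =
          A * (ϖ ^ (e * M) * h ^ M) * C (b.eval c) := by ring
      rw [e1, mul_comm (ϖ ^ (e * M))]
      exact h2
    exact (mul_dvd_mul_iff_left (pow_ne_zero _ hϖ0)).1 h7
  have h8 : ϖ ∣ A * h ^ M * C (b.eval c) := (dvd_pow_self ϖ (by omega)).trans h6
  have hp : Prime ϖ := hϖ.prime
  rcases hp.dvd_or_dvd h8 with h9 | h9
  · rcases hp.dvd_or_dvd h9 with h10 | h10
    · exact absurd h10 hA
    · exact absurd (hp.dvd_of_dvd_pow h10) hh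
  · by_contra hb
    exact hp.not_isUnit (isUnit_of_dvd_unit h9 ((isUnit_iff_ne_zero.2 hb).map C))

theorem root : Pool.Agent.W423.NT.TaskROOT := by
  intro N P loc G m b ϖ h e hFE hϖ hh hloc hf j hj1 hje
  obtain ⟨A, D, hA1, hA2, hD⟩ := hFE
  have he : (e : ℂ) ≠ 0 := by
    have : e ≠ 0 := by omega
    exact_mod_cast this
  set f := ∏ k, G k ^ m k with hfdef
  have hac : (j : ℂ) + (-(j : ℂ) / (e : ℂ)) * e = 0 := by
    field_simp
    ring
  have hAd : ¬ ϖ ∣ A := by
    intro hd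
    by_cases hl : loc
    · obtain ⟨w, hw⟩ := hd
      rw [hw, map_mul, hloc hl, zero_mul] at hA1
      exact zero_ne_one hA1
    · rw [hA2 hl] at hd
      exact hϖ.not_isUnit (isUnit_of_dvd_one hd)
  refine final hϖ hh hf hj1 A hAd b (e := e) (a := j) ?_
  -- the base family
  have hbase : GR f ϖ j e (-(j : ℂ) / (e : ℂ)) (fun n => f ^ (n + 1)) := by
    refine ⟨0, Polynomial.C f, fun n => ?_, ?_⟩
    · show f ^ 0 * f ^ (n + 1) = _
      rw [Polynomial.eval_C, pow_zero, one_mul, pow_succ]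
    · rw [Polynomial.eval_C, mul_zero, add_zero, hf]
      exact (pow_dvd_pow ϖ hje).trans (dvd_mul_right _ _)
  have hsum : GR f ϖ j e (-(j : ℂ) / (e : ℂ)) (fun n => ∑ β ∈ D.support,
      ((n : ℂ) ^ β 0) • ((D β : Module.End ℂ (MvPolynomial (Fin N) ℂ)) (f ^ (n + 1)))) :=
    GR.sum hf D.support _ fun β _ =>
      (GR.weyl hϖ.ne_zero hf hac _ (D β).2 _ hbase).npow (β 0)
  have heq : (fun n : ℕ => C (b.eval (n : ℂ)) * (A * f ^ n)) = fun n : ℕ => ∑ β ∈ D.support,
      ((n : ℂ) ^ β 0) • ((D β : Module.End ℂ (MvPolynomial (Fin N) ℂ)) (f ^ (n + 1))) := by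
    funext n
    have h0 := hD (fun _ => n)
    have h1 : ∀ k : Fin (P+1), SM (fun k (_ : Fin 1) => m k) (fun _ => n) k = m k * n := by
      intro k
      simp [SM]
    have h2 : ∀ k : Fin (P+1), rowM (fun k (_ : Fin 1) => m k) k = m k := by
      intro k
      simp [rowM]
    have hG1 : ∏ k, G k ^ SM (fun k (_ : Fin 1) => m k) (fun _ => n) k = f ^ n := by
      rw [hfdef, ← Finset.prod_pow]
      refine Finset.prod_congr rfl fun k _ => ?_
      rw [h1, pow_mul]
    have hG2 : ∏ k, G k ^ (SM (fun k (_ : Fin 1) => m k) (fun _ => n) k +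
        rowM (fun k (_ : Fin 1) => m k) k) = f ^ (n + 1) := by
      rw [hfdef, ← Finset.prod_pow]
      refine Finset.prod_congr rfl fun k _ => ?_
      rw [h1, h2, ← pow_mul, mul_add, mul_one]
    rw [hG1, hG2, eval_aeval_X0] at h0
    rw [h0, Finsupp.sum]
    refine Finset.sum_congr rfl fun β _ => ?_
    congr 1
    simp
  rw [heq]
  exact hsum

end Pool.Agent.W351.NT
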